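import Pool.Agent.Lib.MP_21a058_co.Lim.Closed
import Pool.Agent.Lib.MP_21a058_co.Lim2.Few

/-! MP_21a058_co: closed partitions with a bound for the SUM of the cuts of the classes. Every
refinement by a near-minimum cut adds `lam / 2 + O(u)` edges between classes for every new
class, so the slack `u` of the near-minimum cuts may be of order `lam / p` (not `lam / p ^ 2`). -/

set_option linter.unusedSectionVars false
set_option linter.unusedVariables false

namespace Pool.Agent.Lib.MP_21a058_co.Lim4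

open Finset
open scoped Classical
open Pool.Agent.Lib.MP_21a058_co.Thin
open Pool.Agent.Lib.MP_21a058_co.Lim2 (mem_dl few)

variable {V E : Type} [Fintype V]

/-- the edges between different classes -/
theorem cr_card {I : Type} (v w : E → V) (R : Finset E) (c : V → I) :
    ∃ S : Finset E, S.card = cr v w R c univ ∧ ∀ e, e ∈ S ↔ e ∈ R ∧ c (v e) ≠ c (w e) := by
  refine ⟨R.filter (fun e => v e ∈ univ ∧ w e ∈ univ ∧ c (v e) ≠ c (w e)), rfl, fun e => ?_⟩
  rw [mem_filter]
  exact ⟨fun h => ⟨h.1, h.2.2.2⟩, fun h => ⟨h.1, mem_univ _, mem_univ _, h.2⟩⟩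

/-- the edges of `R` between `A` and `B` -/
noncomputable def be (v w : E → V) (R : Finset E) (A B : Finset V) : Finset E :=
  R.filter (fun e => (v e ∈ A ∧ w e ∈ B) ∨ (v e ∈ B ∧ w e ∈ A))

theorem mem_be {v w : E → V} {R : Finset E} {A B : Finset V} {e : E} :
    e ∈ be v w R A B ↔ e ∈ R ∧ ((v e ∈ A ∧ w e ∈ B) ∨ (v e ∈ B ∧ w e ∈ A)) := by
  unfold be
  rw [mem_filter]

/-- corners outside `W` -/
theorem corners_out (v w : E → V) (R : Finset E) (W Z : Finset V) :
    (dl v w R (Z \ W)).card + (dl v w R (Z ∪ W)).card ≤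
      (dl v w R W).card + 2 * (be v w R (Z \ W) (Z ∪ W)ᶜ).card := by
  unfold dl be
  simp only [card_filter, ← sum_add_distrib, mul_sum]
  refine sum_le_sum fun e _ => ?_
  simp only [mem_sdiff, mem_union, mem_compl]
  by_cases h1 : v e ∈ W <;> by_cases h2 : w e ∈ W <;> by_cases h3 : v e ∈ Z <;>
    by_cases h4 : w e ∈ Z <;> simp [h1, h2, h3, h4]

/-- corners inside `W` -/
theorem corners_in (v w : E → V) (R : Finset E) (W Z : Finset V) :
    (dl v w R (Z ∩ W)).card + (dl v w R (W \ Z)).card ≤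
      (dl v w R W).card + 2 * (be v w R (Z ∩ W) (W \ Z)).card := by
  unfold dl be
  simp only [card_filter, ← sum_add_distrib, mul_sum]
  refine sum_le_sum fun e _ => ?_
  simp only [mem_sdiff, mem_inter]
  by_cases h1 : v e ∈ W <;> by_cases h2 : w e ∈ W <;> by_cases h3 : v e ∈ Z <;>
    by_cases h4 : w e ∈ Z <;> simp [h1, h2, h3, h4]

/-- both kinds of edges are in the cut of `Z` -/
theorem both_le (v w : E → V) (R : Finset E) (W Z : Finset V) :
    (be v w R (Z ∩ W) (W \ Z)).card + (be v w R (Z \ W) (Z ∪ W)ᶜ).card ≤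
      (dl v w R Z).card := by
  unfold dl be
  simp only [card_filter, ← sum_add_distrib]
  refine sum_le_sum fun e _ => ?_
  simp only [mem_sdiff, mem_inter, mem_union, mem_compl]
  by_cases h1 : v e ∈ W <;> by_cases h2 : w e ∈ W <;> by_cases h3 : v e ∈ Z <;>
    by_cases h4 : w e ∈ Z <;> simp [h1, h2, h3, h4]

/-- each side of a near-minimum cut `W` contains about half of the edges of a crossing
near-minimum cut -/
theorem half {v w : E → V} {R : Finset E} {lam u : ℕ}
    (hlam : ∀ X : Finset V, X.Nonempty → X ≠ univ → lam ≤ (dl v w R X).card)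
    {W Z : Finset V} (hW : (dl v w R W).card ≤ lam + u) (hZ : (dl v w R Z).card ≤ lam + u)
    (hc : Crs Z W) :
    2 * (be v w R (Z ∩ W) (W \ Z)).card ≤ lam + 3 * u ∧
      2 * (be v w R (Z \ W) (Z ∪ W)ᶜ).card ≤ lam + 3 * u ∧
      (be v w R (Z ∩ W) (W \ Z)).card + (be v w R (Z \ W) (Z ∪ W)ᶜ).card ≤ lam + u := by
  obtain ⟨⟨x1, a1, b1⟩, ⟨x2, a2, b2⟩, ⟨x3, a3, b3⟩, ⟨x4, a4, b4⟩⟩ := hc
  have l1 : lam ≤ (dl v w R (Z ∩ W)).card := by
    refine hlam _ ⟨x1, mem_inter.2 ⟨a1, b1⟩⟩ fun h => ?_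
    have := mem_inter.1 (h ▸ mem_univ x2 : x2 ∈ Z ∩ W)
    exact b2 this.2
  have l2 : lam ≤ (dl v w R (Z \ W)).card := by
    refine hlam _ ⟨x2, mem_sdiff.2 ⟨a2, b2⟩⟩ fun h => ?_
    have := mem_sdiff.1 (h ▸ mem_univ x1 : x1 ∈ Z \ W)
    exact this.2 b1
  have l3 : lam ≤ (dl v w R (W \ Z)).card := by
    refine hlam _ ⟨x3, mem_sdiff.2 ⟨a3, b3⟩⟩ fun h => ?_
    have := mem_sdiff.1 (h ▸ mem_univ x1 : x1 ∈ W \ Z)
    exact this.2 a1
  have l4 : lam ≤ (dl v w R (Z ∪ W)).card := by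
    refine hlam _ ⟨x1, mem_union_left _ a1⟩ fun h => ?_
    have := mem_union.1 (h ▸ mem_univ x4 : x4 ∈ Z ∪ W)
    rcases this with h' | h'
    · exact b4 h'
    · exact a4 h'
  have c1 := corners_in v w R W Z
  have c2 := corners_out v w R W Z
  have c3 := both_le v w R W Z
  omega

/-- the classes of the refinement `2 c + [Z]` -/
theorem card_refine (c : V → ℕ) (Z : Finset V) (T : Finset ℕ)
    (hT : ∀ i ∈ T, (∃ x, c x = i ∧ x ∈ Z) ∧ ∃ x, c x = i ∧ x ∉ Z) :
    (univ.image c).card + T.card ≤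
      (univ.image (fun x => 2 * c x + (if x ∈ Z then 1 else 0))).card := by
  obtain ⟨I, hI⟩ : ∃ I, I = univ.image (fun x => 2 * c x + (if x ∈ Z then 1 else 0)) := ⟨_, rfl⟩
  obtain ⟨f, hf⟩ : ∃ f : ℕ → ℕ, f = fun i => if 2 * i ∈ I then 2 * i else 2 * i + 1 := ⟨_, rfl⟩
  have h1 : ((univ.image c).image f).card = (univ.image c).card := by
    refine card_image_of_injOn fun i _ j _ hij => ?_
    have hij' : f i = f j := hij
    simp only [hf] at hij'
    split_ifs at hij' <;> omega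
  have h2 : (T.image (fun i => 2 * i + 1)).card = T.card :=
    card_image_of_injective _ fun i j hij => by
      have hij' : 2 * i + 1 = 2 * j + 1 := hij
      omega
  have h3 : Disjoint ((univ.image c).image f) (T.image (fun i => 2 * i + 1)) := by
    rw [disjoint_left]
    intro k hk hk'
    obtain ⟨i, hi, rfl⟩ := mem_image.1 hk
    obtain ⟨j, hj, hji⟩ := mem_image.1 hk'
    obtain ⟨-, ⟨x, hx1, hx2⟩⟩ := hT j hj
    have hji' : 2 * j + 1 = f i := hji
    have h4 : 2 * j ∈ I := by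
      rw [hI]
      refine mem_image.2 ⟨x, mem_univ _, ?_⟩
      show 2 * c x + (if x ∈ Z then 1 else 0) = 2 * j
      rw [if_neg hx2, hx1, Nat.add_zero]
    simp only [hf] at hji'
    split_ifs at hji' with h5
    · omega
    · have : i = j := by omega
      rw [this] at h5
      exact h5 h4
  have h4 : (univ.image c).image f ∪ T.image (fun i => 2 * i + 1) ⊆ I := by
    intro k hk
    rcases mem_union.1 hk with hk | hk
    · obtain ⟨i, hi, rfl⟩ := mem_image.1 hk
      obtain ⟨x, -, rfl⟩ := mem_image.1 hi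
      have h5 : 2 * c x + (if x ∈ Z then 1 else 0) ∈ I := by
        rw [hI]
        exact mem_image.2 ⟨x, mem_univ _, rfl⟩
      simp only [hf]
      by_cases h6 : 2 * c x ∈ I
      · rw [if_pos h6]
        exact h6
      · rw [if_neg h6]
        by_cases hx : x ∈ Z
        · rwa [if_pos hx] at h5
        · rw [if_neg hx, Nat.add_zero] at h5
          exact absurd h5 h6
    · obtain ⟨i, hi, rfl⟩ := mem_image.1 hk
      obtain ⟨⟨x, hx1, hx2⟩, -⟩ := hT i hi
      rw [hI]
      refine mem_image.2 ⟨x, mem_univ _, ?_⟩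
      show 2 * c x + (if x ∈ Z then 1 else 0) = 2 * i + 1
      rw [if_pos hx2, hx1]
  have h5 := card_le_card h4
  rw [card_union_of_disjoint h3, h1, h2, hI] at h5
  exact h5

/-- a state: `Y` is a union of classes, there are more than `m` classes, and few edges between
the classes -/
def St (v w : E → V) (R : Finset E) (Y : Finset V) (lam u m : ℕ) (c : V → ℕ) : Prop :=
  Un c Y ∧ m + 1 ≤ (univ.image c).card ∧
    2 * cr v w R c univ ≤ (lam + 3 * u) * (univ.image c).card

theorem St.count {v w : E → V} {R : Finset E} {Y : Finset V} {lam u m : ℕ} {c : V → ℕ}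
    (h : St v w R Y lam u m c) {τ : ℕ} (T : Fin τ → Finset E) (hTR : ∀ i, T i ⊆ R)
    (hd : ∀ i j, i ≠ j → Disjoint (T i) (T j)) (hT : ∀ i, ConnOn v w (T i) univ)
    {p : ℕ} (hp : (p + 1) * (lam + 3 * u) < 2 * τ * p) :
    (univ.image c).card ≤ p := by
  by_contra hcon
  push Not at hcon
  obtain ⟨n, hn⟩ : ∃ n, (univ.image c).card = p + 1 + n :=
    ⟨(univ.image c).card - (p + 1), by omega⟩
  have h1 : τ * (univ.image c).card ≤ cr v w R c univ + τ := by
    have h0 := conn_cross_mul v w T hTR hd hT c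
    have e : ∀ d1 d2 : DecidableEq ℕ, (@Finset.image V ℕ d1 c univ).card =
        (@Finset.image V ℕ d2 c univ).card := fun d1 d2 => by
      rw [Subsingleton.elim d1 d2]
    exact le_trans (le_of_eq (congrArg (fun x => τ * x) (e _ _))) h0
  have h3 := h.2.2
  rw [hn] at h1 h3
  have h4 : 2 * τ * (p + n) ≤ (p + 1 + n) * (lam + 3 * u) := by
    have h5 : τ * (p + 1 + n) = τ * (p + n) + τ := by ring
    have h6 : 2 * τ * (p + n) = 2 * (τ * (p + n)) := by ring
    have h7 : (lam + 3 * u) * (p + 1 + n) = (p + 1 + n) * (lam + 3 * u) := Nat.mul_comm _ _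
    omega
  set B := lam + 3 * u with hB
  have h5 : (p + 1) * (2 * τ * (p + n)) ≤ (p + 1) * ((p + 1 + n) * B) :=
    Nat.mul_le_mul_left _ h4
  have h6 : (p + 1 + n) * ((p + 1) * B) + (p + 1 + n) ≤ (p + 1 + n) * (2 * τ * p) := by
    have := Nat.mul_le_mul_left (p + 1 + n) (Nat.succ_le_of_lt hp)
    calc (p + 1 + n) * ((p + 1) * B) + (p + 1 + n) = (p + 1 + n) * ((p + 1) * B + 1) := by ring
      _ ≤ _ := this
  have h7 : (p + 1) * ((p + 1 + n) * B) = (p + 1 + n) * ((p + 1) * B) := by ring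
  have h8 : (p + 1) * (2 * τ * (p + n)) = (p + 1 + n) * (2 * τ * p) + 2 * τ * n := by ring
  omega

/-- refinement of a state by a near-minimum cut `Z` which crosses a near-minimum union `W` of
classes -/
theorem St.step {v w : E → V} {R : Finset E} {Y : Finset V} {lam u m : ℕ} {c : V → ℕ}
    (h : St v w R Y lam u m c)
    (hlam : ∀ X : Finset V, X.Nonempty → X ≠ univ → lam ≤ (dl v w R X).card)
    {W : Finset V} (hWd : (dl v w R W).card ≤ lam + u) (hW : Un c W)
    {Z : Finset V} (hZ : (dl v w R Z).card ≤ lam + u) (hc : Crs Z W) (hs : ¬ Un c Z) :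
    ∃ c', St v w R Y lam u (m + 1) c' := by
  obtain ⟨g1, g2, g3⟩ := h
  obtain ⟨k1, k2, k3⟩ := half hlam hWd hZ hc
  have hs' : ∃ x y, c x = c y ∧ x ∈ Z ∧ y ∉ Z := by
    unfold Un at hs
    push Not at hs
    obtain ⟨x, y, hxy, hh⟩ := hs
    rcases hh with ⟨h1, h2⟩ | ⟨h1, h2⟩
    · exact ⟨x, y, hxy, h1, h2⟩
    · exact ⟨y, x, hxy.symm, h2, h1⟩
  obtain ⟨x0, y0, hxy0, hx0, hy0⟩ := hs'
  obtain ⟨c', hc'⟩ : ∃ c' : V → ℕ, c' = fun x => 2 * c x + (if x ∈ Z then 1 else 0) := ⟨_, rfl⟩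
  have hcc : ∀ x y, c' x = c' y ↔ c x = c y ∧ (x ∈ Z ↔ y ∈ Z) := by
    intro x y
    simp only [hc']
    by_cases hx : x ∈ Z <;> by_cases hy : y ∈ Z <;> simp only [hx, hy, if_true, if_false] <;>
      constructor <;> intro hh
    · exact ⟨by omega, by simp⟩
    · omega
    · exact absurd hh (by omega)
    · exact absurd hh.2 (by simp)
    · exact absurd hh (by omega)
    · exact absurd hh.2 (by simp)
    · exact ⟨by omega, by simp⟩
    · omega
  -- the new edges between classes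
  obtain ⟨A, hA⟩ : ∃ A : Finset E, A = (be v w R (Z ∩ W) (W \ Z)).filter
      (fun e => c (v e) = c (w e)) := ⟨_, rfl⟩
  obtain ⟨B, hB⟩ : ∃ B : Finset E, B = (be v w R (Z \ W) (Z ∪ W)ᶜ).filter
      (fun e => c (v e) = c (w e)) := ⟨_, rfl⟩
  have hAc : A.card ≤ (be v w R (Z ∩ W) (W \ Z)).card := by
    rw [hA]
    exact card_le_card (filter_subset _ _)
  have hBc : B.card ≤ (be v w R (Z \ W) (Z ∪ W)ᶜ).card := by
    rw [hB]
    exact card_le_card (filter_subset _ _)
  have hcr : cr v w R c' univ ≤ cr v w R c univ + (A.card + B.card) := by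
    obtain ⟨S', hS', hS1⟩ := cr_card v w R c'
    obtain ⟨S, hS, hS2⟩ := cr_card v w R c
    have e1 : S' ⊆ S ∪ (A ∪ B) := by
      intro e he
      obtain ⟨h1, h2⟩ := (hS1 e).1 he
      by_cases h3 : c (v e) = c (w e)
      · have h4 : ¬ (v e ∈ Z ↔ w e ∈ Z) := fun h4 => h2 ((hcc _ _).2 ⟨h3, h4⟩)
        have h5 := hW _ _ h3
        refine mem_union_right _ ?_
        by_cases h6 : v e ∈ W
        · have h7 := h5.1 h6
          refine mem_union_left _ ?_
          rw [hA, mem_filter, mem_be]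
          refine ⟨⟨h1, ?_⟩, h3⟩
          by_cases h8 : v e ∈ Z
          · exact Or.inl ⟨mem_inter.2 ⟨h8, h6⟩, mem_sdiff.2 ⟨h7, fun h9 => h4 ⟨fun _ => h9,
              fun _ => h8⟩⟩⟩
          · have h9 : w e ∈ Z := by
              by_contra h9
              exact h4 ⟨fun h => absurd h h8, fun h => absurd h h9⟩
            exact Or.inr ⟨mem_sdiff.2 ⟨h6, h8⟩, mem_inter.2 ⟨h9, h7⟩⟩
        · have h7 : w e ∉ W := fun h => h6 (h5.2 h)
          refine mem_union_right _ ?_
          rw [hB, mem_filter, mem_be]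
          refine ⟨⟨h1, ?_⟩, h3⟩
          by_cases h8 : v e ∈ Z
          · refine Or.inl ⟨mem_sdiff.2 ⟨h8, h6⟩, ?_⟩
            rw [mem_compl, mem_union]
            rintro (h9 | h9)
            · exact h4 ⟨fun _ => h9, fun _ => h8⟩
            · exact h7 h9
          · have h9 : w e ∈ Z := by
              by_contra h9
              exact h4 ⟨fun h => absurd h h8, fun h => absurd h h9⟩
            refine Or.inr ⟨?_, mem_sdiff.2 ⟨h9, h7⟩⟩
            rw [mem_compl, mem_union]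
            rintro (h10 | h10)
            · exact h8 h10
            · exact h6 h10
      · exact mem_union_left _ ((hS2 e).2 ⟨h1, h3⟩)
    rw [← hS', ← hS]
    exact (card_le_card e1).trans ((card_union_le _ _).trans
      (Nat.add_le_add_left (card_union_le _ _) _))
  have hone : (univ.image c).card + 1 ≤ (univ.image c').card := by
    have h1 := card_refine c Z {c x0} (by
      intro i hi
      rw [mem_singleton] at hi
      exact ⟨⟨x0, hi.symm, hx0⟩, ⟨y0, by rw [hi, hxy0], hy0⟩⟩)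
    rw [card_singleton] at h1
    rw [hc']
    exact h1
  refine ⟨c', fun x y hxy => g1 x y ((hcc x y).1 hxy).1, by omega, ?_⟩
  by_cases hAB : A.Nonempty ∧ B.Nonempty
  · obtain ⟨⟨e, he⟩, ⟨f, hf⟩⟩ := hAB
    rw [hA, mem_filter, mem_be] at he
    rw [hB, mem_filter, mem_be] at hf
    simp only [mem_sdiff, mem_inter, mem_union, mem_compl] at he hf
    have hne : c (v e) ≠ c (v f) := by
      intro hh
      have h1 := hW _ _ hh
      have h2 : v e ∈ W := by
        rcases he.1.2 with h2 | h2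
        · exact h2.1.2
        · exact h2.1.1
      have h3 : v f ∉ W := by
        rcases hf.1.2 with h3 | h3
        · exact h3.1.2
        · exact fun h => h3.1 (Or.inr h)
      exact h3 (h1.1 h2)
    have htwo : (univ.image c).card + 2 ≤ (univ.image c').card := by
      have h1 := card_refine c Z {c (v e), c (v f)} (by
        intro i hi
        rw [mem_insert, mem_singleton] at hi
        rcases hi with rfl | rfl
        · rcases he.1.2 with h2 | h2
          · exact ⟨⟨v e, rfl, h2.1.1⟩, ⟨w e, he.2.symm, h2.2.2⟩⟩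
          · exact ⟨⟨w e, he.2.symm, h2.2.1⟩, ⟨v e, rfl, h2.1.2⟩⟩
        · rcases hf.1.2 with h2 | h2
          · exact ⟨⟨v f, rfl, h2.1.1⟩, ⟨w f, hf.2.symm, fun h => h2.2 (Or.inl h)⟩⟩
          · exact ⟨⟨w f, hf.2.symm, h2.2.1⟩, ⟨v f, rfl, fun h => h2.1 (Or.inl h)⟩⟩)
      rw [card_pair hne] at h1
      rw [hc']
      exact h1
    calc 2 * cr v w R c' univ ≤ (lam + 3 * u) * (univ.image c).card + 2 * (lam + u) := by omega
      _ ≤ (lam + 3 * u) * (univ.image c).card + (lam + 3 * u) * 2 := by omega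
      _ = (lam + 3 * u) * ((univ.image c).card + 2) := by ring
      _ ≤ _ := Nat.mul_le_mul_left _ htwo
  · have h1 : 2 * (A.card + B.card) ≤ lam + 3 * u := by
      rcases Finset.eq_empty_or_nonempty A with hA0 | hA0
      · rw [hA0, card_empty]
        omega
      · have hB0 : B = ∅ := by
          rw [← not_nonempty_iff_eq_empty]
          exact fun h => hAB ⟨hA0, h⟩
        rw [hB0, card_empty]
        omega
    calc 2 * cr v w R c' univ ≤ (lam + 3 * u) * (univ.image c).card + (lam + 3 * u) := by omega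
      _ = (lam + 3 * u) * ((univ.image c).card + 1) := by ring
      _ ≤ _ := Nat.mul_le_mul_left _ hone

/-- CLOSED PARTITION -/
theorem atomsC (v w : E → V) (R : Finset E) {τ : ℕ} (T : Fin τ → Finset E)
    (hTR : ∀ i, T i ⊆ R) (hd : ∀ i j, i ≠ j → Disjoint (T i) (T j))
    (hT : ∀ i, ConnOn v w (T i) univ) (lam u p : ℕ)
    (hlam : ∀ X : Finset V, X.Nonempty → X ≠ univ → lam ≤ (dl v w R X).card)
    (hp : (p + 1) * (lam + 3 * u) < 2 * τ * p) (Y : Finset V) (hY : Y.Nonempty)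
    (hYu : Y ≠ univ) (hYd : (dl v w R Y).card ≤ lam + u) :
    ∃ c : V → ℕ, (univ.image c).card ≤ p ∧ Un c Y ∧
      ∀ W : Finset V, (dl v w R W).card ≤ lam + u → Un c W →
        ∀ Z : Finset V, (dl v w R Z).card ≤ lam + u → Crs Z W → Un c Z := by
  by_contra hcon
  push Not at hcon
  have key : ∀ m, ∃ c, St v w R Y lam u (m + 1) c := by
    intro m
    induction m with
    | zero =>
      obtain ⟨x, hx⟩ := id hY
      obtain ⟨y, hy⟩ : ∃ y, y ∉ Y := by
        by_contra hh
        push Not at hh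
        exact hYu (eq_univ_iff_forall.2 hh)
      have h2 : 2 ≤ (univ.image (fun x => if x ∈ Y then 1 else 0)).card := by
        have h1 : ({1, 0} : Finset ℕ) ⊆ univ.image (fun x => if x ∈ Y then 1 else 0) := by
          intro i hi
          rw [mem_insert, mem_singleton] at hi
          rcases hi with rfl | rfl
          · exact mem_image.2 ⟨x, mem_univ _, by simp [hx]⟩
          · exact mem_image.2 ⟨y, mem_univ _, by simp [hy]⟩
        have h2 := card_le_card h1
        have h3 : ({1, 0} : Finset ℕ).card = 2 := by decide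
        omega
      refine ⟨fun x => if x ∈ Y then 1 else 0, fun x y hxy => ?_, h2, ?_⟩
      · by_cases hx : x ∈ Y <;> by_cases hy : y ∈ Y <;> simp [hx, hy] at hxy ⊢
      · have h3 : cr v w R (fun x => if x ∈ Y then 1 else 0) univ ≤ (dl v w R Y).card := by
          obtain ⟨S, hS, hS2⟩ := cr_card v w R (fun x => if x ∈ Y then 1 else 0)
          rw [← hS]
          refine card_le_card fun e he => ?_
          obtain ⟨h4, h5⟩ := (hS2 e).1 he
          refine mem_dl.2 ⟨h4, fun h6 => h5 ?_⟩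
          show (if v e ∈ Y then 1 else 0) = (if w e ∈ Y then 1 else 0)
          by_cases h7 : v e ∈ Y
          · rw [if_pos h7, if_pos (h6.1 h7)]
          · rw [if_neg h7, if_neg (fun h => h7 (h6.2 h))]
        calc 2 * cr v w R (fun x => if x ∈ Y then 1 else 0) univ ≤ (lam + 3 * u) * 2 := by omega
          _ ≤ _ := Nat.mul_le_mul_left _ h2
    | succ m ih =>
      obtain ⟨c, hc⟩ := ih
      obtain ⟨W, hWd, hWu, Z, hZ, hZW, hZu⟩ := hcon c (hc.count T hTR hd hT hp) hc.1
      exact hc.step hlam hWd hWu hZ hZW hZu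
  obtain ⟨c, hc⟩ := key p
  have h1 := hc.count T hTR hd hT hp
  have h2 := hc.2.1
  omega

/-- CLOSED PARTITION for a family `N` of near-minimum cuts without the root: three corners -/
theorem atomsN (v w : E → V) (r : V) (R : Finset E) {τ : ℕ} (T : Fin τ → Finset E)
    (hTR : ∀ i, T i ⊆ R) (hd : ∀ i j, i ≠ j → Disjoint (T i) (T j))
    (hT : ∀ i, ConnOn v w (T i) univ) (lam u p : ℕ)
    (hlam : ∀ X : Finset V, X.Nonempty → X ≠ univ → lam ≤ (dl v w R X).card)
    (hp : (p + 1) * (lam + 3 * u) < 2 * τ * p) (N : Finset (Finset V))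
    (hN : ∀ Y ∈ N, Y.Nonempty ∧ r ∉ Y ∧ (dl v w R Y).card ≤ lam + u) :
    ∀ Y ∈ N, ∃ c : V → ℕ, (univ.image c).card ≤ p ∧ (∀ x y, c x = c y → (x ∈ Y ↔ y ∈ Y)) ∧
      ∀ Z ∈ N, ∀ Z' ∈ N, (∀ x y, c x = c y → (x ∈ Z ↔ y ∈ Z)) →
        ((∃ x, x ∈ Z ∧ x ∈ Z') ∧ (∃ x, x ∈ Z ∧ x ∉ Z') ∧ ∃ x, x ∈ Z' ∧ x ∉ Z) →
        ∀ x y, c x = c y → (x ∈ Z' ↔ y ∈ Z') := by
  intro Y hY
  obtain ⟨y1, y2, y3⟩ := hN Y hY
  obtain ⟨c, c1, c2, c3⟩ := atomsC v w R T hTR hd hT lam u p hlam hp Y y1
    (fun h => y2 (h ▸ mem_univ r)) y3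
  refine ⟨c, c1, c2, fun Z hZ Z' hZ' hun hcr => ?_⟩
  obtain ⟨z1, z2, z3⟩ := hN Z hZ
  obtain ⟨w1, w2, w3⟩ := hN Z' hZ'
  obtain ⟨⟨x, hx1, hx2⟩, ⟨y, hy1, hy2⟩, ⟨z, hz1, hz2⟩⟩ := hcr
  exact c3 Z z3 hun Z' w3 ⟨⟨x, hx2, hx1⟩, ⟨z, hz1, hz2⟩, ⟨y, hy1, hy2⟩, ⟨r, z2, w2⟩⟩

end Pool.Agent.Lib.MP_21a058_co.Lim4
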