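import Pool.Agent.Lib.MP_21a058_co.Lim.Rounds

/-! MP_21a058_co, the iteration of the limit theorem. -/

set_option autoImplicit false

namespace Pool.Agent.Lib.MP_21a058_co.Lim4

open Finset
open Pool.Agent.Lib.MP_21a058_co.P Pool.Agent.Lib.MP_21a058_co.Every
open Pool.Agent.Lib.MP_21a058_co.Swap Pool.Agent.Lib.MP_21a058_co.Iter
open Pool.Agent.Lib.MP_21a058_co.Lim (SelAt round start)

/-- the selection for every state: `p` bounds the number of atoms, `(z + 2) H` trees are given
away by rounding, `Th H` trees are released before it, `c` is lost on each side, and the error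
is `E2 / K` -/
def SelAll (p z Th M K E2 c H : ℕ) : Prop :=
  ∀ (V E : Type) [Fintype V] [DecidableEq V] [Fintype E] [DecidableEq E] (a b : E → V) (r : V)
    (s q tau lam : ℕ) (P : Fin (s + c + (q + c) + Th * H) → Finset E)
    (N : Fin tau → Finset E), q + 2 * c = (z + 2) * H →
    s + c + (q + c) + Th * H ≤ M * H → Trees a b P → Trees a b N → Disjoint (un N) (un P) →
    (∀ Y : Finset V, Y.Nonempty → Y ≠ univ → lam ≤ (cut a b Y \ un P).card) →
    (p + 1) * (lam + 3 * ((z + 2) * H)) < 2 * tau * p →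
    SelAt a b r K E2 s q (s + c) (s + c + (q + c)) ((z + 2) * H) lam P

variable {V E : Type} [Fintype V] [DecidableEq V] [Fintype E] [DecidableEq E] {a b : E → V}

/-- `J` rounds -/
theorem rounds {p z Th M K E2 c H e y E0 m : ℕ} (hsel : SelAll p z Th M K E2 c H) (hK : 0 < K)
    (hH : 0 < H) (hc : c ≤ H) (he : 2 ≤ e) (hy : y + e = 2 * z + 2)
    (hE : 2 * M * E2 ≤ K * e) (hp : 2 * M + 3 * ((p + 1) * (z + 2)) < p * E0)
    (hmM : m ≤ M * H) (hV : Nonempty V) (hm : 0 < m) (hEm : E0 * H ≤ m)
    (hcut : ∀ Y : Finset V, Y.Nonempty → Y ≠ univ → 2 * m ≤ (cut a b Y).card) :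
    ∀ J s : ℕ, s + J * ((z + 2 + Th) * H) + E0 * H ≤ m →
      State a b s (E0 * H + J * (z * H)) (E0 * H + J * (y * H)) := by
  classical
  obtain ⟨r⟩ := id hV
  intro J
  induction J with
  | zero =>
    intro s hs
    have h1 := (start (a := a) (b := b) hV hm hEm hcut).mono (al' := s) (by omega)
    simpa using h1
  | succ J ih =>
    intro s hs
    obtain ⟨q, hq⟩ : ∃ q, q + 2 * c = (z + 2) * H :=
      ⟨(z + 2) * H - 2 * c, by
        have : 2 * H ≤ (z + 2) * H := Nat.mul_le_mul_right _ (by omega)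
        omega⟩
    have e1 : (J + 1) * ((z + 2 + Th) * H) =
        J * ((z + 2 + Th) * H) + ((z + 2) * H + Th * H) := by ring
    have e2 : (J + 1) * (z * H) = J * (z * H) + z * H := by ring
    have e3 : (J + 1) * (y * H) = J * (y * H) + y * H := by ring
    have e4 : (z + 2) * H = z * H + 2 * H := by ring
    have e5 : y * H + e * H = 2 * (z * H) + 2 * H := by
      rw [← Nat.add_mul, hy]
      ring
    have e6 : J * (z * H) * 2 + J * (2 * H) = J * (y * H) + J * (e * H) := by
      have : J * (y * H + e * H) = J * (2 * (z * H) + 2 * H) := by rw [e5]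
      rw [Nat.mul_add, Nat.mul_add] at this
      rw [this]
      ring
    have e7 : J * (2 * H) ≤ J * (e * H) :=
      Nat.mul_le_mul_left _ (Nat.mul_le_mul_right _ he)
    have e8 : J * ((z + 2 + Th) * H) = J * (z * H) + J * (2 * H) + J * (Th * H) := by ring
    have h1 := ih (s + c + (q + c) + Th * H) (by omega)
    obtain ⟨P, N, hP, hN, hNP, hlam⟩ := h1
    have hlm : E0 * H + J * (y * H) + 2 * (s + c + (q + c) + Th * H) ≤ 2 * m := by
      have : J * (y * H) ≤ 2 * (J * (z * H)) + J * (2 * H) := by omega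
      omega
    have hs1 := hsel V E a b r s q _ _ P N hq (by omega) hP hN hNP hlam (by
      set lam := E0 * H + J * (y * H) with hlamd
      set tau := E0 * H + J * (z * H) with htaud
      have f2 : lam + E0 * H ≤ 2 * tau := by omega
      have f3 : lam ≤ 2 * M * H := by
        have : 2 * M * H = 2 * (M * H) := by ring
        omega
      have f4 : (2 * M + 3 * ((p + 1) * (z + 2))) * H < p * E0 * H :=
        Nat.mul_lt_mul_of_pos_right hp hH
      have f5 : p * (lam + E0 * H) ≤ p * (2 * tau) := Nat.mul_le_mul_left _ f2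
      have g1 : (p + 1) * (lam + 3 * ((z + 2) * H)) =
          p * lam + lam + 3 * ((p + 1) * (z + 2)) * H := by ring
      have g2 : (2 * M + 3 * ((p + 1) * (z + 2))) * H =
          2 * M * H + 3 * ((p + 1) * (z + 2)) * H := by ring
      have g3 : p * (lam + E0 * H) = p * lam + p * E0 * H := by ring
      have g4 : p * (2 * tau) = 2 * tau * p := by ring
      omega)
    have h2 := round (m := m) (F := e * H) (lam' := E0 * H + J * (y * H) + y * H)
      (by omega) hK rfl (Nat.le_add_right _ _) hlm (by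
        calc 2 * m * E2 ≤ 2 * (M * H) * E2 :=
              Nat.mul_le_mul_right _ (Nat.mul_le_mul_left _ hmM)
          _ = (2 * M * E2) * H := by ring
          _ ≤ (K * e) * H := Nat.mul_le_mul_right _ hE
          _ = K * (e * H) := by ring) hcut hN hNP hlam hs1 (by omega) (by omega)
    refine (Pool.Agent.Lib.MP_21a058_co.Lim.State.mono' (nu' := E0 * H + (J + 1) * (z * H))
      (lam' := E0 * H + (J + 1) * (y * H)) ?_ ?_ h2)
    · omega
    · omega

/-- **the iteration**: the graph theorem after `J` rounds -/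
theorem core {p z Th M K E2 c H e y E0 m J s l : ℕ} (hsel : SelAll p z Th M K E2 c H)
    (hK : 0 < K) (hH : 0 < H) (hc : c ≤ H) (he : 2 ≤ e) (hy : y + e = 2 * z + 2)
    (hE : 2 * M * E2 ≤ K * e) (hp : 2 * M + 3 * ((p + 1) * (z + 2)) < p * E0)
    (hmM : m ≤ M * H) (hs : s + J * ((z + 2 + Th) * H) + E0 * H ≤ m)
    (hl : l ≤ E0 * H + J * (y * H)) : Core m 0 s l := by
  intro V E _ _ _ _ a b hV hcut
  have hE0 : 0 < E0 := by
    rcases Nat.eq_zero_or_pos E0 with h0 | h0
    · subst h0
      omega
    · exact h0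
  have hEm : E0 * H ≤ m := by omega
  have hm : 0 < m := lt_of_lt_of_le (Nat.mul_pos hE0 hH) hEm
  obtain ⟨P, N, hP, -, -, hlam⟩ :=
    rounds hsel hK hH hc he hy hE hp hmM hV hm hEm (by simpa using hcut) J s hs
  exact ⟨P, hP.2, fun i => (hP.1 i).1, fun Y h1 h2 => hl.trans (hlam Y h1 h2)⟩

end Pool.Agent.Lib.MP_21a058_co.Lim4
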